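import Mathlib

namespace Pool.Agent.H.MP_f61096_al

open Filter HNNExtension
open scoped commutatorElement

variable {G : Type} [Group G]

theorem hnn_solv {A B : Subgroup G} (φ : A ≃* B) [h : Group.IsSolvable (HNNExtension G A B φ)] : A = ⊤ ∨ B = ⊤ := by
  by_contra! n
  obtain ⟨y, hy⟩ : ∃ y, y ∉ A := by simpa [Subgroup.eq_top_iff'] using n.1
  obtain ⟨x, hx⟩ : ∃ x, x ∉ B := by simpa [Subgroup.eq_top_iff'] using n.2
  let Pr : List (ℤˣ × G) → HNNExtension G A B φ := fun L => (L.map fun x => t ^ (x.1 : ℤ) * of x.2).prod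
  let Ch : List (ℤˣ × G) → Prop := fun L => L.IsChain fun a b => a.2 ∈ toSubgroup A B a.1 → a.1 = b.1
  let S : HNNExtension G A B φ → Prop := fun g => ∃ c M, (∀ z, Ch ((1, c) :: M ++ [(-1, z)])) ∧ g = Pr ((1, c) :: M) * t⁻¹
  have s1 : ∀ g k z, z ∉ B → S g → S k → S (g * of z * k) := by
    rintro _ _ z i ⟨c, M, p, rfl⟩ ⟨c', M', p', rfl⟩
    refine ⟨c, M ++ (-1, z) :: (1, c') :: M', fun z' => ?_, by simp [Pr, mul_assoc]⟩
    have := List.isChain_split.2 ⟨p z, List.isChain_cons_cons.2 ⟨fun j => (i j).elim, p' z'⟩⟩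
    simpa only [Ch, List.append_assoc, List.cons_append, List.append_eq] using this
  have s2 : ∀ g z z', S g → S (t * of z * g * of z' * t⁻¹) := by
    rintro _ z z' ⟨c, M, p, rfl⟩
    refine ⟨z, (1, c) :: M ++ [(-1, z')], fun w => ?_, by simp [Pr, mul_assoc]⟩
    have := List.isChain_cons_cons (a := (1, z)).2 ⟨fun _ => rfl, List.isChain_split (l₂ := [(-1, w)]).2 ⟨p z', by simp⟩⟩
    simpa only [Ch, List.append_assoc, List.cons_append, List.append_eq, List.nil_append] using this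
  have s0 : ∀ z, z ∉ A → S (t * of z * t⁻¹) := fun z i => ⟨z, [], fun w => by simpa [Ch] using i, by simp [Pr]⟩
  have s3 : ∀ n, ∃ g ∈ derivedSeries (HNNExtension G A B φ) n, S g ∧ S g⁻¹ := fun n => by
    induction n with
    | zero => exact ⟨_, trivial, s0 y hy, by simpa [mul_assoc] using s0 y⁻¹ (by simpa using hy)⟩
    | succ n ih =>
      obtain ⟨g, i, p, q⟩ := ih
      have hx' : x⁻¹ ∉ B := by simpa using hx
      refine ⟨_, (derivedSeries_normal _ (n + 1)).conj_mem _ (Subgroup.commutator_mem_commutator i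
        ((derivedSeries_normal _ n).conj_mem _ i (of x))) t, ?_, ?_⟩
      · simpa [commutatorElement_def, mul_assoc] using s2 _ 1 x⁻¹ (s1 _ _ _ hx (s1 _ _ _ hx' (s1 _ _ _ hx p p) q) q)
      · simpa [commutatorElement_def, mul_assoc] using s2 _ x 1 (s1 _ _ _ hx' (s1 _ _ _ hx (s1 _ _ _ hx' p p) q) q)
  obtain ⟨n, e⟩ := h.solvable
  obtain ⟨g, i, ⟨c, M, p, q⟩, -⟩ := s3 n
  rw [e, Subgroup.mem_bot] at i
  simpa using ReducedWord.toList_eq_nil_of_mem_of_range φ ⟨1, _, p 1⟩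
    ⟨1, by simpa [NormalWord.ReducedWord.prod, Pr, i, mul_assoc] using q⟩

theorem asc {t : G} {B : Subgroup G} (h : ∀ c ∈ B, t * c * t⁻¹ ∈ B) {X : Set G} (hX : Subgroup.closure X = ⊤)
    (k : ∀ x ∈ X, ∃ j : ℤ, x * t ^ j ∈ B) (g : G) : ∃ (n : ℕ) (j : ℤ), t ^ n * g * t ^ j ∈ B := by
  have : ∃ j : ℤ, ∀ᶠ n : ℤ in atTop, t ^ n * g * t ^ (j - n) ∈ B := by
    refine Subgroup.closure_induction (p := fun g _ => ∃ j : ℤ, ∀ᶠ n : ℤ in atTop, t ^ n * g * t ^ (j - n) ∈ B) (fun x i => ?_)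
      ⟨0, by simp [one_mem]⟩ (fun a b _ _ ⟨i, p⟩ ⟨j, q⟩ => ⟨i + j, ?_⟩) (fun a _ ⟨i, p⟩ => ⟨-i, ?_⟩) (hX ▸ Subgroup.mem_top g)
    · obtain ⟨j, p⟩ := k x i
      refine ⟨j, (eventually_ge_atTop 0).mono fun n i => ?_⟩
      induction n, i using Int.leInduction with
      | base => simpa using p
      | succ n _ ih => convert h _ ih using 1; group
    · filter_upwards [p, (tendsto_atTop_add_const_right _ (-i) tendsto_id).eventually q] with n p q
      convert mul_mem p q using 1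
      simp only [id]; group
    · filter_upwards [(tendsto_atTop_add_const_right _ i tendsto_id).eventually p] with n p
      convert inv_mem p using 1
      simp only [id]; group
  obtain ⟨j, p⟩ := this
  obtain ⟨n, p, q⟩ := (p.and (eventually_ge_atTop 0)).exists
  lift n to ℕ using q
  exact ⟨n, _, by simpa using p⟩

def cj (t : G) (B : Subgroup G) : Subgroup B := (B.comap (MulAut.conj t).toMonoidHom).subgroupOf B

def cje (t : G) (B : Subgroup G) : cj t B ≃* cj t⁻¹ B where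
  toFun c := ⟨⟨t * c * t⁻¹, c.2⟩, by simp [cj, Subgroup.mem_subgroupOf, mul_assoc]⟩
  invFun c := ⟨⟨t⁻¹ * c * t⁻¹⁻¹, c.2⟩, by simp [cj, Subgroup.mem_subgroupOf, mul_assoc]⟩
  left_inv c := by ext; simp [mul_assoc]
  right_inv c := by ext; simp [mul_assoc]
  map_mul' a b := by ext; simp [mul_assoc]

theorem cj_rel {s : G} {B : Subgroup G} (c d : B) (e : d.1 = s * c * s⁻¹) : (t : HNNExtension B _ _ (cje s B)) * of c = of d * t :=
  (t_mul_of (φ := cje s B) ⟨c, show s * c * s⁻¹ ∈ B from e ▸ d.2⟩).trans (congrArg (fun x => of x * t) (Subtype.ext e.symm))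

theorem bs [hG : Group.IsFinitelyPresented G] [Group.IsSolvable G] (χ : G →* Multiplicative ℤ) (h : ∃ g, χ g ≠ 1) :
    ∃ (s : G) (F : Set G), F.Finite ∧ (∀ x ∈ F, χ x = 1) ∧ ∀ x, χ x = 1 → ∃ n : ℕ, s ^ n * x * (s ^ n)⁻¹ ∈ Subgroup.closure F := by
  classical
  obtain ⟨s, h1, h2⟩ : ∃ s, χ s ≠ 1 ∧ ∀ g, ∃ k : ℤ, χ (g * s ^ k) = 1 := by
    obtain ⟨⟨_, s, rfl⟩, e⟩ := IsCyclic.exists_generator (α := χ.range)
    have e : ∀ g, ∃ k : ℤ, χ s ^ k = χ g := fun g => (e ⟨_, g, rfl⟩).imp fun k i => congrArg Subtype.val i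
    refine ⟨s, fun i => ?_, fun g => ?_⟩
    · obtain ⟨g, j⟩ := h
      obtain ⟨k, l⟩ := e g
      simp [← l, i] at j
    · obtain ⟨k, l⟩ := e g
      exact ⟨-k, by simp [l]⟩
  have h3 : ∀ k : ℤ, χ s ^ k = 1 → k = 0 := fun k i => by simpa [h1] using i
  obtain ⟨n, φ, p1, Rl, p2, p3⟩ := hG
  choose kk hk using fun i : Fin n => h2 (φ (.of i))
  let F : ℕ → Set G := fun m => (fun p : Fin n × ℤ => s ^ p.2 * (φ (.of p.1) * s ^ kk p.1) * (s ^ p.2)⁻¹) '' Set.univ ×ˢ Set.Icc (-m : ℤ) m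
  let B : ℕ → Subgroup G := fun m => Subgroup.closure (F m)
  have b0 : ∀ m, ∀ x ∈ F m, χ x = 1 := by
    rintro m _ ⟨p, -, rfl⟩
    rw [map_mul, map_mul, hk, map_inv, mul_one, mul_inv_cancel]
  have b1 : ∀ m, B m ≤ χ.ker := fun m => (Subgroup.closure_le _).2 (b0 m)
  have b2 : ∀ (m : ℕ) i (j : ℤ), -m ≤ j → j ≤ m → s ^ j * (φ (.of i) * s ^ kk i) * (s ^ j)⁻¹ ∈ B m := fun m i j a b =>
    Subgroup.subset_closure ⟨(i, j), ⟨trivial, a, b⟩, rfl⟩
  let bb : ∀ m, Fin n → B m := fun m i => ⟨φ (.of i) * s ^ kk i, by simpa using b2 m i 0 (by omega) (by omega)⟩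
  let H := fun m => HNNExtension (B m) _ _ (cje s (B m))
  let ψ : ∀ m, FreeGroup (Fin n) →* H m := fun m => FreeGroup.lift fun i => of (bb m i) * t ^ (-kk i)
  let π : ∀ m, H m →* G := fun m => lift (B m).subtype s fun a => by simp [cje]
  have π1 : ∀ m, π m t = s := fun m => lift_t ..
  have π2 : ∀ m c, π m (of c) = c := fun m c => lift_of ..
  have q1 : ∀ (m : ℕ) i (j : ℤ), -m ≤ j → j ≤ m → ∀ c : B m, c.1 = s ^ j * bb m i * (s ^ j)⁻¹ →
      (t : H m) ^ j * of (bb m i) = of c * t ^ j := fun m i j => by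
    induction j with
    | zero => exact fun _ _ c e => by simp [show c = bb m i from Subtype.ext (by simpa using e)]
    | succ j ih =>
      intro a b c e
      rw [add_comm, zpow_add, zpow_one, mul_assoc, ih (by omega) (by omega) ⟨_, b2 m i j (by omega) (by omega)⟩ rfl, ← mul_assoc,
        cj_rel _ c (by rw [e]; simp only [bb]; group), mul_assoc]
    | pred j ih =>
      intro a b c e
      rw [sub_eq_neg_add, zpow_add, zpow_neg_one, mul_assoc, ih (by omega) (by omega) ⟨_, b2 m i _ (by omega) (by omega)⟩ rfl,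
        inv_mul_eq_iff_eq_mul, ← mul_assoc t, cj_rel c ⟨_, b2 m i (-j) (by omega) (by omega)⟩ (by rw [e]; simp only [bb]; group)]
      group
  have q2 : ∀ w, ∃ k : ℤ, ∀ j : ℤ, ∀ᶠ m in atTop, ∃ c, t ^ j * ψ m w = of c * t ^ (j + k) := fun w => by
    induction w with
    | C1 => exact ⟨0, fun j => .of_forall fun F => ⟨1, by simp⟩⟩
    | of i =>
      refine ⟨-kk i, fun j => (eventually_ge_atTop j.natAbs).mono fun m a => ⟨⟨_, b2 m i j (by omega) (by omega)⟩, ?_⟩⟩
      simp only [ψ, FreeGroup.lift_apply_of]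
      rw [← mul_assoc, q1 m i j (by omega) (by omega) ⟨_, b2 m i j (by omega) (by omega)⟩ rfl, zpow_add, mul_assoc]
    | inv_of i ih =>
      obtain ⟨k, p⟩ := ih
      refine ⟨-k, fun j => (p (j - k)).mono fun F ⟨c, e⟩ => ⟨c⁻¹, ?_⟩⟩
      rw [map_inv, map_inv, mul_inv_eq_iff_eq_mul, mul_assoc, ← sub_eq_add_neg, e]
      simp
    | mul a b iha ihb =>
      obtain ⟨k, p⟩ := iha
      obtain ⟨l, q⟩ := ihb
      refine ⟨k + l, fun j => ?_⟩
      filter_upwards [p j, q (j + k)] with F ⟨c, e⟩ ⟨c', e'⟩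
      exact ⟨c * c', by rw [map_mul, ← mul_assoc, e, mul_assoc, e', map_mul, mul_assoc, add_assoc]⟩
  have q3 : ∀ w (l : ℤ), φ w = s ^ l → ∀ᶠ m in atTop, ψ m w = t ^ l := fun w l e => by
    obtain ⟨k, p⟩ := q2 w
    refine (p 0).mono fun m ⟨c, f⟩ => ?_
    simp only [zpow_zero, one_mul, zero_add] at f
    have a : (π m).comp (ψ m) = φ := FreeGroup.ext_hom _ _ fun i => by simp [π1, π2, ψ, bb]
    have g : s ^ l = c * s ^ k := by simpa [f, π1, π2, e] using (DFunLike.congr_fun a w).symm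
    have : l = k := by
      have := congrArg χ g
      rw [map_mul, show χ c = 1 from b1 m c.2, one_mul, map_zpow, map_zpow] at this
      exact sub_eq_zero.1 (h3 _ (by rw [zpow_sub, this, mul_inv_cancel]))
    subst this
    obtain rfl : c = 1 := Subtype.ext (by simpa using g)
    simpa using f
  obtain ⟨w, hw⟩ := p1 s
  obtain ⟨m, r1, r2⟩ := (((eventually_all_finite p2).2 fun r i => q3 r 0 (by
    simpa using (p3 ▸ Subgroup.subset_normalClosure i : r ∈ φ.ker))).and (q3 w 1 (by simp [hw]))).exists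
  let σ : G →* H m := φ.liftOfSurjective p1 ⟨ψ m, p3 ▸ Subgroup.normalClosure_le_normal fun r i => by simpa using r1 r i⟩
  have s1 : ∀ u, σ (φ u) = ψ m u := fun u => φ.liftOfRightInverse_comp_apply _ _ _ u
  have s2 : σ s = t := (congrArg σ hw.symm).trans (by rw [s1, r2, zpow_one])
  have : Group.IsSolvable (H m) := Group.isSolvable_of_surjective (f := σ) fun x => by
    induction x using induction_on with
    | of c =>
      obtain ⟨c, i⟩ := c
      induction i using Subgroup.closure_induction with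
      | mem x i =>
        obtain ⟨⟨i, j⟩, ⟨-, a, b⟩, rfl⟩ := i
        refine ⟨s ^ j * (φ (.of i) * s ^ kk i) * (s ^ j)⁻¹, ?_⟩
        simp only [map_mul, map_inv, map_zpow, s1, s2, ψ, FreeGroup.lift_apply_of, mul_inv_eq_iff_eq_mul]
        simpa using q1 m i j a b ⟨_, b2 m i j a b⟩ rfl
      | one => exact ⟨1, (map_one σ).trans (map_one of).symm⟩
      | mul x y i j p q => exact σ.range.mul_mem p q |>.imp fun _ e => e.trans (map_mul of (⟨x, i⟩ : B m) ⟨y, j⟩).symm
      | inv x i p => exact σ.range.inv_mem p |>.imp fun _ e => e.trans (map_inv of (⟨x, i⟩ : B m)).symm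
    | t => exact ⟨s, s2⟩
    | mul x y p q => exact σ.range.mul_mem p q
    | inv x p => exact σ.range.inv_mem p
  have hX : Subgroup.closure (φ '' Set.range FreeGroup.of) = ⊤ := by
    rw [← MonoidHom.map_closure, FreeGroup.closure_range_of, Subgroup.map_top_of_surjective _ p1]
  have fin : ∀ u : G, (∀ k : ℤ, χ u ^ k = 1 → k = 0) → (∀ i, ∃ j : ℤ, φ (.of i) * u ^ j ∈ B m) → cj u (B m) = ⊤ →
      ∀ x, χ x = 1 → ∃ n : ℕ, u ^ n * x * (u ^ n)⁻¹ ∈ B m := fun u a b c x e => by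
    obtain ⟨l, j, f⟩ := asc (t := u) (fun y i => (Subgroup.eq_top_iff' _).1 c ⟨y, i⟩) hX (by rintro _ ⟨_, ⟨i, rfl⟩, rfl⟩; exact b i) x
    have := a (l + j) (by simpa [e, zpow_add] using b1 m f)
    exact ⟨l, by rwa [show j = -l by omega, zpow_neg, zpow_natCast] at f⟩
  have hF : (F m).Finite := (Set.finite_univ.prod (Set.finite_Icc ..)).image _
  rcases hnn_solv (cje s (B m)) with e | e
  exacts [⟨s, _, hF, b0 m, fin s h3 (fun i => ⟨_, (bb m i).2⟩) e⟩,
    ⟨s⁻¹, _, hF, b0 m, fin s⁻¹ (fun k i => by simpa using h3 (-k) (by simpa using i)) (fun i => ⟨-kk i, by simpa [-SetLike.coe_mem] using (bb m i).2⟩) e⟩]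

section Ord
variable {O : Type} [LinearOrder O] [MulAction G O]

theorem top [hG : Group.IsSolvable G] [NoMaxOrder O] [Nonempty O] (mo : ∀ g : G, StrictMono fun x : O => g • x) (tr : ∀ x y : O, ∃ g : G, g • x = y)
    (D : O → ℕ) (hD : ∀ n, {x | D x ≤ n}.Finite) (sh : ∀ g : G, ∃ c : ℤ, ∀ᶠ x in atTop, (D (g • x) : ℤ) = D x + c) :
    ∃ χ : G →* Multiplicative ℤ, (∀ g, χ g = 1 ↔ ∃ x : O, g • x = x) ∧ (∀ g, χ g = 1 → ∀ᶠ x : O in atTop, g • x = x) ∧
      ∀ x : O, ∃ y, ∀ g ∈ commutator G, g • x < y := by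
  choose c hc using sh
  have td : ∀ g : G, Tendsto (fun x : O => g • x) atTop atTop := fun g =>
    (mo g).monotone.tendsto_atTop_atTop fun y => ⟨g⁻¹ • y, by simp⟩
  let χ : G →* Multiplicative ℤ := MonoidHom.mk' (fun g => .ofAdd (c g)) fun g h => by
    obtain ⟨x, p, q, r⟩ := ((hc (g * h)).and (((td h).eventually (hc g)).and (hc h))).exists
    rw [mul_smul] at p
    exact congrArg Multiplicative.ofAdd (by omega : c (g * h) = c g + c h)
  have e1 : ∀ g, χ g = 1 ↔ c g = 0 := fun g => ofAdd_eq_one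
  have e2 : ∀ g, χ g = 1 → ∀ᶠ x : O in atTop, g • x = x := fun g h => by
    have : ∀ g, χ g = 1 → ∀ᶠ x : O in atTop, g • x ≤ x := fun g h => by
      obtain ⟨y, p⟩ := eventually_atTop.1 (hc g)
      refine (eventually_ge_atTop y).mono fun x i => not_lt.1 fun j => ?_
      have m : StrictMono fun n : ℕ => g ^ n • x := strictMono_nat_of_lt_succ fun n => by simpa [pow_succ, mul_smul] using mo (g ^ n) j
      refine Set.infinite_of_injective_forall_mem m.injective (fun n => ?_) (hD (D x))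
      induction n with
      | zero => simp
      | succ n ih =>
        have := p _ (i.trans (by simpa using m.monotone n.zero_le))
        simp only [pow_succ', mul_smul, Set.mem_ofPred_eq, (e1 g).1 h] at this ih ⊢
        omega
    filter_upwards [this g h, this g⁻¹ (by simp [h])] with x p q
    exact p.antisymm (by simpa using (mo g).monotone q)
  have cm : ∀ (a b : G) (x : O), a • b • x = ⁅a, b⁆ • b • a • x := fun a b x => by simp [commutatorElement_def, mul_smul]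
  have e3 : ∀ n, (∀ x : O, ∃ y, ∀ g ∈ derivedSeries G (n + 1), g • x < y) → ∀ x : O, ∃ y, ∀ g ∈ commutator G, g • x < y := fun n => by
    induction n with
    | zero => exact id
    | succ n ih =>
      refine fun h => ih fun x => ?_
      obtain ⟨y, p⟩ := h x
      by_contra! k
      obtain ⟨g, i, j⟩ := k y
      obtain ⟨z, q⟩ := eventually_atTop.1 (e2 g (Abelianization.commutator_subset_ker χ (derivedSeries_antitone G (by simp : 1 ≤ n + 1) i)))
      obtain ⟨g', i', j'⟩ := k z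
      have := cm g'⁻¹ g (g' • x)
      rw [q _ j', inv_smul_smul] at this
      have l := p _ (inv_mem (Subgroup.commutator_mem_commutator (inv_mem i') i))
      rw [inv_smul_eq_iff.2 this] at l
      exact l.not_ge j
  obtain ⟨n, e⟩ := hG
  have e4 := e3 n fun x => (exists_gt x).imp fun y p g i => by
    rwa [show g = 1 by simpa [e] using derivedSeries_antitone G n.le_succ i, one_smul]
  refine ⟨χ, fun g => ⟨fun h => (e2 g h).exists, fun ⟨x, h⟩ => (e1 g).2 ?_⟩, e2, e4⟩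
  obtain ⟨y, p⟩ := eventually_atTop.1 (hc g)
  obtain ⟨z, q⟩ := e4 y
  have r : ∀ k : ℤ, y ≤ g ^ k • z := fun k => by
    obtain ⟨a, rfl⟩ := tr x z
    rw [cm, MulAction.zpow_smul_eq_iff_period_dvd.2 (by simp [MulAction.period_eq_one_iff.2 h])]
    have := mo ⁅g ^ k, a⁆ (q ⁅g ^ k, a⁆⁻¹ (inv_mem (Subgroup.commutator_mem_commutator trivial trivial)))
    simp only [smul_inv_smul] at this
    exact this.le
  have r2 : ∀ k : ℤ, (D (g ^ k • z) : ℤ) = D z + k * c g := fun k => by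
    induction k with
    | zero => simp
    | succ k ih => rw [add_comm (k : ℤ), zpow_add, zpow_one, mul_smul, p _ (r k), ih]; ring
    | pred k ih =>
      have := p _ (r (-k - 1))
      rw [← mul_smul, ← zpow_one_add, show 1 + (-k - 1 : ℤ) = -k by ring, ih] at this
      linarith
  have := r2 (-(D z + 1) * c g)
  by_contra n
  nlinarith [mul_self_pos.2 n, Int.natCast_nonneg (D z), Int.natCast_nonneg (D (g ^ (-(D z + 1) * c g) • z))]

theorem ord [Group.IsFinitelyPresented G] [Group.IsSolvable G] [Nontrivial O] (mo : ∀ g : G, StrictMono fun x : O => g • x)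
    (tr : ∀ x y : O, ∃ g : G, g • x = y) (D : O → ℕ) (hD : ∀ n, {x | D x ≤ n}.Finite)
    (sh : ∀ g : G, ∃ c : ℤ, ∀ᶠ x in atTop, (D (g • x) : ℤ) = D x + c) (sh' : ∀ g : G, ∃ c : ℤ, ∀ᶠ x in atBot, (D (g • x) : ℤ) = D x + c)
    (K : O → Subgroup G) (hK : ∀ g, {x | g • x = x ∧ g ∉ K x}.Finite) (a : ∀ x, ∃ g ∈ commutator G, ∀ h : G, h * g * h⁻¹ ∉ K (h • x)) :
    False := by
  obtain ⟨u, v, l⟩ := exists_pair_lt O
  have : NoMaxOrder O := ⟨fun x => let ⟨g, e⟩ := tr u x; ⟨g • v, e.symm.trans_lt (mo g l)⟩⟩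
  have : NoMinOrder O := ⟨fun x => let ⟨g, e⟩ := tr v x; ⟨g • u, (mo g l).trans_eq e⟩⟩
  obtain ⟨χ, e1, e2, e3⟩ := top mo tr D hD sh
  obtain ⟨χ', e4, e5, -⟩ := top (O := Oᵒᵈ) (fun g => (mo g).dual) tr D hD sh'
  replace e5 : ∀ g : G, (∃ x : O, g • x = x) → ∀ᶠ x : O in atBot, g • x = x := fun g h => e5 g ((e4 g).2 h)
  have cm : ∀ (a b : G) (x : O), a • b • x = ⁅a, b⁆ • b • a • x := fun a b x => by simp [commutatorElement_def, mul_smul]
  obtain ⟨s, F, f1, f2, f3⟩ := bs χ (by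
    by_contra! k
    obtain ⟨y, p⟩ := e3 u
    obtain ⟨g, rfl⟩ := tr u y
    obtain ⟨x, q⟩ := (e1 g).1 (k g)
    obtain ⟨b, rfl⟩ := tr x u
    have := p _ (Subgroup.commutator_mem_commutator (g₁ := g) (g₂ := b) trivial trivial)
    rw [cm g b, q] at this
    exact this.false)
  obtain ⟨y1, p1⟩ := eventually_atTop.1 ((eventually_all_finite f1).2 fun g i =>
    (e2 g (f2 g i)).and (atTop_le_cofinite (hK g).eventually_cofinite_notMem))
  obtain ⟨y0, p0⟩ := eventually_atBot.1 ((eventually_all_finite f1).2 fun g i =>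
    (e5 g ((e1 g).1 (f2 g i))).and (atBot_le_cofinite (hK g).eventually_cofinite_notMem))
  obtain ⟨x, hx⟩ : ∃ x : O, ∀ n : ℕ, s ^ n • x ≤ y0 ∨ y1 ≤ s ^ n • x := by
    rcases le_total (s • y0) y0 with k | k
    · refine ⟨y0, fun n => .inl ?_⟩
      induction n with
      | zero => simp
      | succ n ih => simpa [pow_succ', mul_smul] using ((mo s).monotone ih).trans k
    · obtain ⟨z, q⟩ := e3 y1
      obtain ⟨b, rfl⟩ := tr y0 y1
      refine ⟨z, fun n => .inr ?_⟩
      have : y0 ≤ s ^ n • y0 := by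
        induction n with
        | zero => simp
        | succ n ih => simpa [pow_succ', mul_smul] using k.trans ((mo s).monotone ih)
      have l := q _ (Subgroup.commutator_mem_commutator (g₁ := (s ^ n)⁻¹) (g₂ := b) trivial trivial)
      have l' := (mo (s ^ n)).monotone ((mo ⁅(s ^ n)⁻¹, b⁆).monotone ((mo b).monotone ((mo (s ^ n)⁻¹).monotone this)))
      beta_reduce at l'
      rw [← cm, smul_inv_smul, inv_smul_smul] at l'
      exact l'.trans (mo _ l).le
  obtain ⟨g, i, j⟩ := a x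
  obtain ⟨n, k⟩ := f3 g (Abelianization.commutator_subset_ker χ i)
  refine j _ ((Subgroup.closure_le _).2 (fun y m => ?_) k)
  rcases hx n with l | l
  exacts [by simpa [(p0 _ l y m).1] using (p0 _ l y m).2, by simpa [(p1 _ l y m).1] using (p1 _ l y m).2]

end Ord

end Pool.Agent.H.MP_f61096_al
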