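import Mathlib

namespace Pool.Agent.H.MP_f61096_al

open Filter

theorem tau {C Y : Type} [Group C] [MulAction C Y] [Nonempty Y] (adj : Y → Y → Prop) (d : Y → Y → ℕ) (sym : ∀ u v, adj u v → adj v u)
    (inv : ∀ (g : C) u v, adj u v → adj (g • u) (g • v)) (h2 : ∀ ρ u v, adj u v → d ρ v = d ρ u + 1 ∨ d ρ u = d ρ v + 1)
    (h3 : ∀ ρ u v v', adj u v → adj u v' → d ρ u = d ρ v + 1 → d ρ u = d ρ v' + 1 → v = v')
    (h4 : ∀ ρ u n, d ρ u = n + 1 → ∃ v, adj v u ∧ d ρ v = n) (h5 : ∀ ρ u, d ρ u = 0 → u = ρ) (h7 : ∀ ρ, d ρ ρ = 0)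
    (ni : ∀ (g : C) u, adj u (g • u) → g • g • u ≠ u) (z : C) (cz : ∀ g, Commute g z) (fz : ∀ u : Y, z • u ≠ u) :
    ∃ τ : C →* Multiplicative ℤ, τ z ≠ 1 ∧ ∀ (g : C) (u : Y), g • u = u → τ g = 1 := by
  have ind : ∀ ρ (P : Y → Prop), P ρ → (∀ u v, adj u v → d ρ v = d ρ u + 1 → P u → P v) → ∀ u, P u := fun ρ P a b u => by
    induction e : d ρ u generalizing u with
    | zero => exact h5 ρ u e ▸ a
    | succ n ih =>
      obtain ⟨v, i, j⟩ := h4 ρ u n e
      exact b v u i (by omega) (ih v j)
  have tri : ∀ x ρ y, d x y ≤ d x ρ + d ρ y := fun x ρ => ind ρ _ (by simp) fun u v i j k => by have := h2 x u v i; omega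
  have one : ∀ u v, adj u v → d u v = 1 := fun u v i => by have := h2 u u v i; have := h7 u; omega
  have sy : ∀ x y, d x y = d y x := by
    have : ∀ x y, d y x ≤ d x y := fun x => ind x _ le_rfl fun u v i j k => by
      have := tri v u x; have := one v u (sym _ _ i); omega
    exact fun x y => (this y x).antisymm (this x y)
  have di : ∀ (g : C) x y, d (g • x) (g • y) = d x y := by
    have : ∀ (g : C) x y, d (g • x) (g • y) ≤ d x y := fun g x => ind x _ (by simp [h7]) fun u v i j k => by
      have := h2 (g • x) _ _ (inv g u v i); omega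
    exact fun g x y => (this g x y).antisymm (by simpa using this g⁻¹ (g • x) (g • y))
  have cut : ∀ x s u, adj x s → d u s = d u x + 1 → ∀ y, d x y = d s y + 1 → d u y = d u x + d x y := fun x s u i j y => by
    have o := one _ _ i
    induction e : d s y using Nat.strong_induction_on generalizing y with
    | _ n ih =>
    intro k
    cases n with
    | zero => obtain rfl := h5 s y e; omega
    | succ n =>
      obtain ⟨y', a, b⟩ := h4 s y n e
      have c := tri x s y'
      have c' := h2 x _ _ a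
      have l := ih n (by omega) y' b (by omega)
      refine (h2 u _ _ a).elim (by omega) fun m => ?_
      cases n with
      | zero =>
        obtain rfl := h5 s y' b
        obtain rfl := h3 u y' x y (sym _ _ i) a j m
        have := h7 x; omega
      | succ n =>
        obtain ⟨y'', a', b'⟩ := h4 s y' n b
        have c := tri x s y''
        have c' := h2 x _ _ a'
        have l := ih n (by omega) y'' b' (by omega)
        obtain rfl := h3 u y' y'' y (sym _ _ a') a (by omega) m
        omega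
  obtain ⟨v0, mn⟩ : ∃ v0 : Y, ∀ v, d v0 (z • v0) ≤ d v (z • v) := ⟨_, fun v => Function.argmin_le (fun v : Y => d v (z • v)) v⟩
  obtain ⟨k, hk⟩ := Nat.exists_eq_add_one_of_ne_zero fun e => fz v0 (h5 _ _ e)
  obtain ⟨s, s1, s2⟩ := h4 (z • v0) v0 k (sy _ _ ▸ hk)
  obtain ⟨p, p1, p2⟩ := h4 v0 (z • v0) k hk
  have ne : z • s ≠ p := by
    rintro rfl
    cases k with
    | zero =>
      obtain rfl := h5 _ _ s2
      exact ni z v0 (sym _ _ s1) (h5 _ _ p2)
    | succ j =>
      obtain ⟨q, q1, q2⟩ := h4 s (z • v0) j (sy _ _ ▸ s2)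
      have := tri v0 s q
      have := one _ _ (sym _ _ s1)
      have := h2 v0 _ _ q1
      obtain rfl := h3 v0 _ _ _ (sym _ _ q1) (sym _ _ p1) (by omega) (by omega)
      have := mn s
      omega
  have gr : ∀ n : ℕ, d v0 (z ^ n • v0) = n * (k + 1) ∧ d v0 (z ^ n • s) = n * (k + 1) + 1 := fun n => by
    induction n with
    | zero => simpa [h7] using one _ _ (sym _ _ s1)
    | succ n ih =>
      have a := cut _ _ v0 (inv (z ^ n) _ _ (sym _ _ s1)) (by omega) (z ^ n • z • v0) (by rw [di, di, hk, sy, s2])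
      rw [di, hk, ih.1, ← mul_smul, ← pow_succ] at a
      refine ⟨by rw [a]; ring, (h2 v0 _ _ (inv (z ^ (n + 1)) _ _ s1)).elim (fun b => (ne ?_).elim) (by rw [a]; intro b; rw [b]; ring)⟩
      have c := tri v0 (z ^ n • v0) (z ^ n • p)
      have c' := inv (z ^ n) _ _ p1
      rw [← mul_smul, ← pow_succ] at c'
      have := h2 v0 _ _ c'
      rw [di, p2, ih.1] at c
      have := h3 v0 _ _ _ (inv (z ^ (n + 1)) _ _ (sym _ _ s1)) (sym _ _ c') b (by omega)
      rwa [pow_succ, mul_smul, smul_left_cancel_iff] at this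
  have bu : ∀ v, ∃ b : ℤ, ∀ᶠ n : ℕ in atTop, (d v (z ^ n • v0) : ℤ) = n * (k + 1) + b := fun v => by
    let f : ℕ → ℕ := fun n => d v (z ^ n • v0) + d v0 v - n * (k + 1)
    have f0 : ∀ n, n * (k + 1) ≤ d v (z ^ n • v0) + d v0 v := fun n => by have := tri v0 v (z ^ n • v0); rw [(gr n).1] at this; omega
    have f1 : Antitone f := antitone_nat_of_succ_le fun n => by
      have := tri v (z ^ n • v0) (z ^ n • z • v0)
      rw [di, hk, ← mul_smul, ← pow_succ] at this
      have := f0 n
      simp only [f, add_mul]; omega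
    refine ⟨f (Function.argmin f) - d v0 v, (eventually_ge_atTop (Function.argmin f)).mono fun n i => ?_⟩
    rw [← (f1 i).antisymm (Function.argmin_le f n)]
    simp only [f, Nat.cast_sub (f0 n)]
    push_cast; ring
  choose b hb using bu
  have sd : ∀ u v x x', adj u v → d x x' < d u x → (d v x : ℤ) - d u x = d v x' - d u x' := fun u v x x' i j => by
    have := sy x x'
    have := sy x u
    have := sy x v
    have := sy x' u
    have := sy x' v
    rcases h2 x _ _ i with c | c <;> rcases h2 x' _ _ i with c' | c'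
    · omega
    · have := cut u v x i c x' (by omega); omega
    · have := cut u v x' i c' x (by omega); omega
    · omega
  have key : ∀ (g : C) v, b (g • v) - b v = b (g • v0) - b v0 := fun g => ind v0 _ rfl fun u v i _ ih => by
    obtain ⟨n, a1, a2, a3, a4, a5⟩ := ((hb u).and ((hb v).and ((hb (g • u)).and ((hb (g • v)).and
      (eventually_gt_atTop (d v0 (g⁻¹ • v0) + (b u).natAbs)))))).exists
    have e : ∀ w, d (g • w) (z ^ n • v0) = d w (z ^ n • g⁻¹ • v0) := fun w => by
      rw [← di g w, ← mul_smul, ← mul_smul, ((cz g).pow_right n).eq, mul_inv_cancel_right]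
    have := sd u v (z ^ n • v0) (z ^ n • g⁻¹ • v0) i (by rw [di]; zify; rw [a1]; nlinarith [Int.natCast_nonneg n, Int.natCast_nonneg k, neg_abs_le (b u), Int.natCast_natAbs (b u)])
    rw [e] at a3 a4
    omega
  refine ⟨MonoidHom.mk' (fun g => .ofAdd (b (g • v0) - b v0)) fun g h => congrArg Multiplicative.ofAdd ?_, fun e => ?_, fun g u e => ?_⟩
  · change b _ - b v0 = (b (g • v0) - b v0) + (b (h • v0) - b v0)
    rw [mul_smul, ← key g (h • v0)]; ring
  · obtain ⟨n, a1, a2, a3⟩ := ((hb v0).and ((hb (z • v0)).and (eventually_gt_atTop 0))).exists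
    obtain ⟨n, rfl⟩ := Nat.exists_eq_add_one_of_ne_zero a3.ne'
    rw [(gr _).1] at a1
    rw [pow_succ', mul_smul, di, (gr _).1] at a2
    have : b (z • v0) - b v0 = 0 := ofAdd_eq_one.1 e
    push_cast at a1 a2
    nlinarith [Int.natCast_nonneg k]
  · exact ofAdd_eq_one.2 (by rw [← key g u, e, sub_self])

end Pool.Agent.H.MP_f61096_al
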