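import Pool.Agent.H.MP_7ddd63_al.C
import Pool.Agent.H.MP_f61096_al.A
import Pool.Agent.H.MP_f61096_al.B

namespace Pool.Agent.H.MP_8a4945_al

open scoped commutatorElement

variable {S : Type} {R : Set (Rl S)} {G T : Type} [Group G] [MulAction G T] {X : Sys R G T} {o : T} {N : T → List (Tm S)}

namespace Sys

def Ad (X : Sys R G T) (μ : X.Q true) (d : Bool) (u v : X.Q false) : Prop := ∃ t t' a r b, X.St t t' a r d b ∧ X.q true t a.length = μ ∧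
  u = X.q false t a.length ∧ v = X.q false t' a.length

def Vt (X : Sys R G T) (μ : X.Q true) (z : X.Q false) : Prop := ∃ t i, X.q true t i = μ ∧ z = X.q false t i

theorem sd {t t' a r d b} (k : X.St t t' a r d b) : X.q true t a.length = X.q true t' a.length :=
  Quot.sound ⟨_, _, _, _, k, .inl (by simp)⟩

theorem Ad.sym {μ d u v} (h : X.Ad μ d u v) : X.Ad μ (!d) v u :=
  let ⟨t, t', a, r, b, k, e, f, f'⟩ := h; ⟨t', t, a, r, b, X.sym k, (sd k).symm.trans e, f', f⟩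

theorem Ad.act {μ d u v} {g : G} (h : X.Ad μ d u v) (k : g • μ = μ) : X.Ad μ d (g • u) (g • v) := by
  obtain ⟨t, t', a, r, b, l, e, rfl, rfl⟩ := h
  exact ⟨_, _, a, r, b, X.sact g l, by rw [← smul_q, e, k], rfl, rfl⟩

theorem tree_at {μ} {i0} (l0 : i0 < X.ln o) (e0 : X.q true o i0 = μ) : ∃ dep : X.Q false → ℕ,
    (∀ d u v, X.Ad μ d u v → dep v = dep u + 1 ∨ dep u = dep v + 1) ∧
    (∀ d d' u v v', X.Ad μ d u v → X.Ad μ d' u v' → dep u = dep v + 1 → dep u = dep v' + 1 → v = v') ∧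
    (∀ u n, X.Vt μ u → dep u = n + 1 → ∃ v d, X.Ad μ d v u ∧ dep v = n) ∧ (∀ u, X.Vt μ u → dep u = 0 → u = X.q false o i0) ∧
    dep (X.q false o i0) = 0 ∧ ∀ d u v, X.Ad μ d u v → ¬ X.Ad μ (!d) u v := by
  obtain ⟨N, hN⟩ := X.chart o
  obtain ⟨nz, hz⟩ : ∃ nz : X.Q false → Option (Tm S), ∀ t i, nz (X.q false t i) = (N t)[i]? :=
    ⟨Quot.lift (fun p => (N p.1)[p.2]?) fun _ _ h => hN.nm0 (Quot.sound h), fun _ _ => rfl⟩
  have zi : ∀ u v y, nz u = some y → nz v = some y → u = v := by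
    rintro ⟨t, i⟩ ⟨u, j⟩ y a b
    exact hN.kk0 ((List.getElem?_eq_some_iff.1 ((hz t i).symm.trans a)).1.trans_eq (hN.len t)) (((hz t i).symm.trans a).trans ((hz u j).symm.trans b).symm)
  obtain ⟨dep, hd⟩ : ∃ dep : X.Q false → ℕ, ∀ u y, nz u = some y → dep u = dp y :=
    ⟨fun u => ((nz u).map dp).getD 0, fun u y k => by simp [k]⟩
  have un : ∀ {t t' a c b A B}, X.Up N t t' a c b A B → ∃ y L, c.L = y :: L ∧ nz (X.q false t a.length) = some y ∧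
      nz (X.q false t' a.length) = some (c.o 0) := fun v => by
    obtain ⟨y, L, M, e1, e2⟩ := v.os0
    exact ⟨y, L, e1, by simp [hz, v.e1, e1, ← v.l1], by simp [hz, v.e2, e2, ← v.l1]⟩
  have key : ∀ d u v, X.Ad μ d u v → ∃ (c : Ce S) (y : Tm S) (L : List (Tm S)), c.L = y :: L ∧
      ((nz u = some y ∧ nz v = some (c.o 0) ∧ dep v = dep u + 1 ∧ c.d = d) ∨
        (nz v = some y ∧ nz u = some (c.o 0) ∧ dep u = dep v + 1 ∧ c.d = !d)) := by
    rintro d _ _ ⟨t, t', a, r, b, k, -, rfl, rfl⟩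
    rcases hN.dich k with ⟨L, A, B, v⟩ | ⟨L, A, B, v⟩ <;> obtain ⟨y, L, p1, p2, p3⟩ := un v
    exacts [⟨_, y, L, p1, .inl ⟨p2, p3, by rw [hd _ _ p2, hd _ _ p3, (lp_zero p1).2], rfl⟩⟩,
      ⟨_, y, L, p1, .inr ⟨p2, p3, by rw [hd _ _ p2, hd _ _ p3, (lp_zero p1).2], rfl⟩⟩]
  have r0 : nz (X.q false o i0) = some (.ini i0) := by simp [hz, hN.base, l0]
  refine ⟨dep, fun d u v k => ?_, fun d d' u v v' k k' a b => ?_, ?_, ?_, by rw [hd _ _ r0]; rfl, fun d u v k k' => ?_⟩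
  · obtain ⟨c, y, L, -, k | k⟩ := key d u v k
    exacts [.inl k.2.2.1, .inr k.2.2.1]
  · obtain ⟨c, y, L, p, k | k⟩ := key d u v k
    · omega
    obtain ⟨c', y', L', p', k' | k'⟩ := key d' u v' k'
    · omega
    obtain rfl := (Ce.o_inj (Option.some.inj (k.2.1.symm.trans k'.2.1))).1
    obtain rfl := (List.cons.inj (p.symm.trans p')).1
    exact zi _ _ _ k.1 k'.1
  · rintro _ n ⟨t, i, e, rfl⟩ k
    obtain ⟨y, p⟩ := hN.get (hN.val (e0.trans e.symm) l0)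
    rw [hd _ y ((hz t i).trans p)] at k
    rcases dp_cases y with w | ⟨c, z, L, w, rfl⟩
    · omega
    induction m : (cells (N t)).ncard generalizing t i with
    | zero => simpa [(Set.ncard_eq_zero (hN.inv t).fin).1 m] using cells_o (List.mem_of_getElem? p)
    | succ m' ih =>
      obtain ⟨c', -, t0, a, b, A, B, v⟩ := hN.rm (fun _ => True) (t := t) (by simp) ⟨c, cells_o (List.mem_of_getElem? p), trivial⟩
      rcases v.ks false i with ⟨j, f⟩ | ⟨j, -, f⟩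
      · rw [f]
        refine ih t0 j ((to1 f).symm.trans e) ((hN.nm0 f).symm.trans p) ?_
        rw [(hN.up_c v).2, Set.ncard_insert_of_notMem (hN.up_c v).1 (hN.inv t0).fin] at m
        omega
      · obtain rfl := (Ce.o_inj (Option.some.inj (p.symm.trans f))).1
        obtain ⟨y, L', p1, p2, p3⟩ := un v
        obtain rfl := hN.idx (e := false) (j := a.length) (hN.val (e0.trans e.symm) l0) (by rw [p, ← hz, p3])
        refine ⟨_, _, ⟨t0, t, a, _, b, v.st, (sd v.st).trans e, rfl, rfl⟩, ?_⟩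
        rw [hd _ _ p2]
        have := (lp_zero p1).2
        omega
  · rintro _ ⟨t, i, e, rfl⟩ k
    obtain ⟨y, p⟩ := hN.get (hN.val (e0.trans e.symm) l0)
    rw [hd _ y ((hz t i).trans p)] at k
    have n := hN.nm (e.trans e0.symm)
    rw [p, ← hz, r0] at n
    simp only [Option.map_some, ph, cond_true, lp_ini, Option.some.injEq] at n
    rcases dp_cases y with w | ⟨c, z, L, w, rfl⟩
    · exact zi _ _ y ((hz t i).trans p) (by rw [r0, ← n, w.1])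
    · have := (lp_zero w).2
      omega
  · obtain ⟨c, y, L, p, k | k⟩ := key d u v k <;> obtain ⟨c', y', L', p', k' | k'⟩ := key _ u v k'
    · obtain rfl := (Ce.o_inj (Option.some.inj (k.2.1.symm.trans k'.2.1))).1
      simpa using k.2.2.2.symm.trans k'.2.2.2
    · omega
    · omega
    · obtain rfl := (Ce.o_inj (Option.some.inj (k.2.1.symm.trans k'.2.1))).1
      simpa using k.2.2.2.symm.trans k'.2.2.2

theorem tau0 {μ} {z : G} (h : X.Hyp z μ) (C : Subgroup G) (hz : z ∈ C) (hC : ∀ g ∈ C, g • μ = μ ∧ Commute g z) :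
    ∃ τ : C →* Multiplicative ℤ, τ ⟨z, hz⟩ ≠ 1 ∧ ∀ g : C, ¬ X.Hyp g μ → τ g = 1 := by
  let Y := {u // X.Vt μ u}
  let _ : MulAction C Y :=
    { smul := fun g u => ⟨g.1 • u.1, by obtain ⟨_, t, i, e, rfl⟩ := u; exact ⟨g.1 • t, i, by rw [← smul_q, e, (hC _ g.2).1], rfl⟩⟩
      one_smul := fun u => Subtype.ext (one_smul G u.1)
      mul_smul := fun a b u => Subtype.ext (mul_smul a.1 b.1 u.1) }
  obtain ⟨o, i0, l0, e0⟩ := h.1
  obtain ⟨N, hN⟩ := X.chart o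
  have : Nonempty Y := ⟨⟨_, o, i0, e0, rfl⟩⟩
  choose t i e f using fun u : Y => u.2
  choose dep h2 h3 h4 h5 h7 h8 using fun u : Y => tree_at (hN.val (e0.trans (e u).symm) l0) (e u)
  obtain ⟨τ, a, b⟩ := MP_f61096_al.tau (C := C) (fun u v : Y => ∃ d, X.Ad μ d u.1 v.1) (fun u v => dep u v.1)
    (fun _ _ ⟨_, k⟩ => ⟨_, k.sym⟩) (fun g _ _ ⟨_, k⟩ => ⟨_, k.act (hC _ g.2).1⟩) (fun ρ _ _ ⟨_, k⟩ => h2 ρ _ _ _ k)
    (fun ρ _ _ _ ⟨_, k⟩ ⟨_, l⟩ a b => Subtype.ext (h3 ρ _ _ _ _ _ k l a b))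
    (fun ρ u n k => by
      obtain ⟨v, d, p, q⟩ := h4 ρ _ n u.2 k
      exact ⟨⟨v, let ⟨t, _, a, _, _, _, e, f, _⟩ := p; ⟨t, _, e, f⟩⟩, ⟨d, p⟩, q⟩)
    (fun ρ u k => Subtype.ext ((h5 ρ _ u.2 k).trans (f ρ).symm)) (fun ρ => (congrArg _ (f ρ)).trans (h7 ρ))
    (fun g u ⟨d, k⟩ l => h8 u _ _ _ k (by
      have := (k.act (hC _ g.2).1).sym
      rwa [show g.1 • (g • u).1 = u.1 from congrArg Subtype.val l] at this))
    ⟨z, hz⟩ (fun g => Subtype.ext (hC _ g.2).2) fun u k => h.2.2 _ _ (e u) (by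
      have := congrArg Subtype.val k
      rwa [show (_ • u).1 = z • u.1 from rfl, f u] at this)
  refine ⟨τ, a, fun g k => by_contra fun n => k ⟨h.1, (hC _ g.2).1, fun t i e l => n (b g ⟨_, t, i, e, rfl⟩ (Subtype.ext l))⟩⟩

theorem Hyp.zpow {μ} {z : G} (h : X.Hyp z μ) {n : ℤ} (k : n ≠ 0) : X.Hyp (z ^ n) μ := by
  obtain ⟨τ, a, b⟩ := tau0 h (.zpowers z) (Subgroup.mem_zpowers z) (by
    rintro _ ⟨m, rfl⟩
    exact ⟨zpow_mem (show z ∈ MulAction.stabilizer G μ from h.2.1) m, .zpow_self ..⟩)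
  by_contra c
  have := b (⟨z, Subgroup.mem_zpowers z⟩ ^ n) c
  simp [k, a] at this

def pr' {u v : G} (h : Commute u v) : Multiplicative (ℤ × ℤ) →* G := MonoidHom.mk' (fun a => u ^ a.toAdd.1 * v ^ a.toAdd.2) fun a b => by
  simp only [toAdd_mul, Prod.fst_add, Prod.snd_add, zpow_add]
  exact (h.zpow_zpow _ _).mul_mul_mul_comm ..

theorem tau1 {μ} {z : G} (h : X.Hyp z μ) (C : Subgroup G) (hz : z ∈ C) (hC : ∀ g ∈ C, g • μ = μ ∧ Commute g z) :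
    ∃ τ : C →* Multiplicative ℤ, ∀ g : C, τ g = 1 ↔ ¬ X.Hyp g μ := by
  obtain ⟨τ, a, b⟩ := tau0 h C hz hC
  refine ⟨τ, fun g => ⟨fun e k => no_free (pr' (hC _ g.2).2) (μ := μ) fun c i => by_contra fun j => ?_, b g⟩⟩
  have := b (g ^ c.toAdd.1 * (⟨z, hz⟩ : C) ^ c.toAdd.2) j
  have l : c.toAdd.2 = 0 := by simpa [e, a] using this
  exact j (by simpa [pr', l] using k.zpow fun m : c.toAdd.1 = 0 => i (Prod.ext m l))

theorem Hyp.ne {μ} {z : G} (h : X.Hyp z μ) : z ≠ 1 := by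
  rintro rfl
  obtain ⟨t, i, -, e⟩ := h.1
  exact h.2.2 t i e (by rw [one_smul])

theorem Hyp.inv {μ} {z : G} (h : X.Hyp z μ) : X.Hyp z⁻¹ μ := by simpa using h.zpow (n := -1) (by simp)

theorem tf (X : Sys R G T) (o : T) {g : G} (h : g * g = 1) : g = 1 := by
  by_contra n
  obtain ⟨μ, a, -⟩ := start (X := X) o n
  exact (a.zpow two_ne_zero).ne (by rw [zpow_two, h])

theorem klein (X : Sys R G T) (o : T) {g x : G} (h : g * x * g⁻¹ = x⁻¹) : x = 1 := by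
  by_contra n
  obtain ⟨μ, a, b⟩ := start (X := X) o n
  have e : g • μ = μ := uniq (g := x⁻¹) (h ▸ a.conj g) a.inv (inv_mem b) (h ▸ RR_conj g b)
  obtain ⟨l, p, ρ, q, rfl⟩ := split a.1 e
  have h : ρ * x * ρ⁻¹ = x⁻¹ := calc
    _ = l⁻¹ * (l * ρ * x * (l * ρ)⁻¹) * l := by group
    _ = _ := by rw [h, ← (lr_comm a.1 (inv_mem p) (inv_mem b)).eq, inv_mul_cancel_right]
  obtain ⟨ν, c, d⟩ := start (X := X) (g := ρ) o (by rintro rfl; exact n (X.tf o (by simpa [eq_inv_iff_mul_eq_one] using h)))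
  have c2 : X.Hyp (ρ * ρ) ν := zpow_two ρ ▸ c.zpow two_ne_zero
  have k : Commute x (ρ * ρ) := (mul_inv_eq_iff_eq_mul.1 (calc ρ * ρ * x * (ρ * ρ)⁻¹
    _ = ρ * (ρ * x * ρ⁻¹) * ρ⁻¹ := by group
    _ = (ρ * x * ρ⁻¹)⁻¹ := by nth_rewrite 1 [h]; group
    _ = x := by rw [h, inv_inv])).symm
  obtain ⟨l, p, σ, r, rfl⟩ := split c.1 (fix_start c2 (mul_mem d d) k)
  obtain rfl : l = 1 := X.tf o (disj' c.1 (mul_mem p p) (by
    have : l * l = σ⁻¹ * (ρ * σ * ρ⁻¹)⁻¹ := calc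
      _ = l * (l * ρ * σ * ρ⁻¹) * (ρ * σ * ρ⁻¹)⁻¹ := by group
      _ = _ := by rw [← (lr_comm c.1 p d).eq, mul_assoc ρ, h, ← (lr_comm c.1 p r).eq, mul_inv_rev, mul_inv_cancel_left]
    exact this ▸ mul_mem (inv_mem r) (inv_mem (mul_mem (mul_mem d r) (inv_mem d)))))
  obtain rfl := uniq a c (by simpa using r) q
  obtain ⟨τ, t⟩ := tau1 c2 (MulAction.stabilizer G μ ⊓ Subgroup.centralizer {ρ * ρ}) ⟨c2.2.1, by simp [Subgroup.mem_centralizer_iff]⟩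
    fun g i => ⟨i.1, (i.2 _ rfl).symm⟩
  have m : 1 * σ ∈ MulAction.stabilizer G μ ⊓ Subgroup.centralizer {ρ * ρ} := ⟨a.2.1, by rintro _ rfl; exact k.symm⟩
  have m' : ρ ∈ MulAction.stabilizer G μ ⊓ Subgroup.centralizer {ρ * ρ} := ⟨c.2.1, by rintro _ rfl; exact mul_assoc ..⟩
  have := congrArg τ (show (⟨ρ, m'⟩ * ⟨_, m⟩ * ⟨ρ, m'⟩⁻¹ : ↥(MulAction.stabilizer G μ ⊓ Subgroup.centralizer {ρ * ρ})) = ⟨_, m⟩⁻¹ from Subtype.ext h)
  rw [map_mul, map_mul, map_inv, map_inv, mul_inv_cancel_comm, eq_inv_iff_mul_eq_one, ← pow_two] at this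
  exact (t ⟨_, m⟩).1 (by simpa using this) a

theorem proj {μ} (v : (X.Z true μ).Nonempty) (h : ∀ g : G, g • μ = μ) : ∃ πL πR : G →* G,
    ∀ g, πR g ∈ X.RR μ ∧ (g ∈ X.RR μ → πL g = 1) ∧ (πL g = 1 → g = πR g) := by
  choose l p ρ q e using fun g => split v (h g)
  have un : ∀ a b a' b', a ∈ X.LL μ → b ∈ X.RR μ → a' ∈ X.LL μ → b' ∈ X.RR μ → a * b = a' * b' → a = a' ∧ b = b' := fun a b a' b' i j i' j' k => by
    have e : a'⁻¹ * a = b' * b⁻¹ := by rw [inv_mul_eq_iff_eq_mul, ← mul_assoc, ← k, mul_inv_cancel_right]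
    have := disj' v (mul_mem (inv_mem i') i) (e ▸ mul_mem j' (inv_mem j))
    exact ⟨(inv_mul_eq_one.1 this).symm, (mul_inv_eq_one.1 (e ▸ this)).symm⟩
  have m : ∀ g k, l (g * k) = l g * l k ∧ ρ (g * k) = ρ g * ρ k := fun g k => un _ _ _ _ (p _) (q _) (mul_mem (p _) (p _)) (mul_mem (q _) (q _))
    (by rw [← e, (lr_comm v (p k) (q g)).symm.mul_mul_mul_comm, ← e, ← e])
  exact ⟨.mk' l fun g k => (m g k).1, .mk' ρ fun g k => (m g k).2, fun g => ⟨q g, fun i => (un _ _ 1 g (p g) (q g) (one_mem _) i (by rw [← e, one_mul])).1,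
    fun i : l g = 1 => by simpa [i] using e g⟩⟩

theorem case1 (X : Sys R G T) (o : T) (A : Subgroup G) [hA : A.Normal] (h1 : ∀ π : G →* G, ∀ x ∈ A, π x ∈ A) (h2 : ∀ x ∈ A, ∀ y ∈ A, Commute x y)
    (h3 : ∀ x ∈ A, ∀ μ, X.Hyp x μ → x ∈ X.RR μ → ∀ g : G, g • μ = μ) {a : G} (ha : a ∈ A) (hc : a ∈ commutator G) : a = 1 := by
  have ce : ∀ x ∈ A, ∀ g, Commute g x := fun x i g => by
    by_contra n
    have iz : ⁅g, x⁆ ∈ A := mul_mem (hA.conj_mem x i g) (inv_mem i)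
    obtain ⟨ν, a, b⟩ := start (X := X) o (mt commutatorElement_eq_one_iff_commute.1 n)
    have f := h3 _ iz ν a b
    obtain ⟨πL, πR, p⟩ := proj a.1 f
    have e : ⁅g, x⁆ = ⁅πR g, πR x⁆ := ((p _).2.2 ((p _).2.1 b)).trans (map_commutatorElement ..)
    have i' := h1 πR x i
    have q1 := (p g).1
    have q2 := (p x).1
    rw [e] at a iz
    generalize πR g = g, πR x = x at a iz i' q1 q2
    obtain ⟨τ, t⟩ := tau1 a A iz fun y j => ⟨f y, h2 _ j _ iz⟩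
    let c : G → A → A := fun g y => ⟨g * y * g⁻¹, hA.conj_mem _ y.2 g⟩
    have c0 : ∀ g y, τ (c g y) = 1 ↔ τ y = 1 := fun g y => by
      rw [t, t]
      exact not_congr ⟨fun k => by simpa [c, mul_assoc, f] using k.conj g⁻¹, fun k => f g ▸ k.conj g⟩
    have c1 : ∀ y y', (τ (c g y)).toAdd * (τ y').toAdd = (τ y).toAdd * (τ (c g y')).toAdd := fun y y' => by
      have := (c0 g (y ^ (τ y').toAdd * y' ^ (-(τ y).toAdd))).2 (Multiplicative.toAdd.injective (by simp [mul_comm]))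
      rw [show c g _ = c g y ^ (τ y').toAdd * c g y' ^ (-(τ y).toAdd) from Subtype.ext (by
        simp only [c, Subgroup.coe_mul, Subgroup.coe_zpow, conj_zpow]; group)] at this
      have := congrArg Multiplicative.toAdd this
      simp only [map_mul, map_zpow, toAdd_mul, toAdd_zpow, smul_eq_mul, toAdd_one] at this
      linarith
    have z0 : τ ⟨_, iz⟩ ≠ 1 := fun k => (t _).1 k a
    obtain ⟨x0, m0, m1⟩ : ∃ x0 : A, τ x0 ≠ 1 ∧ ∀ y, τ y ≠ 1 → (τ x0).toAdd.natAbs ≤ (τ y).toAdd.natAbs :=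
      ⟨_, Function.argminOn_mem _ {y | τ y ≠ 1} ⟨_, z0⟩, fun y j => Function.argminOn_le (fun y : A => (τ y).toAdd.natAbs) _ j⟩
    have e1 := c1 x0 (c g⁻¹ x0)
    rw [show c g (c g⁻¹ x0) = x0 from Subtype.ext (by simp [c, mul_assoc])] at e1
    have e2 := m1 _ (mt (c0 g x0).1 m0)
    have e3 := m1 _ (mt (c0 g⁻¹ x0).1 m0)
    have e4 : (τ x0).toAdd ≠ 0 := m0
    have e5 : (τ (c g x0)).toAdd.natAbs = (τ x0).toAdd.natAbs := by
      have := congrArg Int.natAbs e1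
      simp only [Int.natAbs_mul] at this
      nlinarith [Int.natAbs_pos.2 e4]
    have e6 := c1 ⟨x, i'⟩ x0
    have e7 : (τ ⟨_, iz⟩).toAdd = (τ (c g ⟨x, i'⟩)).toAdd - (τ ⟨x, i'⟩).toAdd := by
      rw [show (⟨_, iz⟩ : A) = c g ⟨x, i'⟩ * ⟨x, i'⟩⁻¹ from rfl, map_mul, map_inv]; rfl
    have e8 : (τ ⟨_, iz⟩).toAdd ≠ 0 := z0
    have e9 : (τ (c g ⟨x, i'⟩)).toAdd = -(τ ⟨x, i'⟩).toAdd := by
      rcases Int.natAbs_eq_natAbs_iff.1 e5 with k | k <;> rw [k] at e6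
      · exact (e8 (by rw [e7, mul_right_cancel₀ e4 e6, sub_self])).elim
      · exact mul_right_cancel₀ e4 (by linarith)
    have hx : X.Hyp x ν := by_contra fun k => e8 (by rw [e7, e9, (t ⟨x, i'⟩).2 k]; rfl)
    have hb : ¬ X.Hyp (g * x * g⁻¹ * x) ν := (t (c g ⟨x, i'⟩ * ⟨x, i'⟩)).1 (Multiplicative.toAdd.injective (by simp [e9]))
    obtain ⟨ν', a', b'⟩ := start (X := X) (g := g * x * g⁻¹ * x) o fun k => hx.ne (X.klein o (eq_inv_of_mul_eq_one_left k))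
    obtain ⟨πL, πR, p⟩ := proj a'.1 (h3 _ (mul_mem (hA.conj_mem x i' g) i') ν' a' b')
    have k' : πL x = 1 := X.klein o (g := πL g) (eq_inv_of_mul_eq_one_left (by simpa using (p _).2.1 b'))
    have k2 : x ∈ X.RR ν' := (p x).2.2 k' ▸ (p x).1
    exact hb (uniq hx a' k2 (mul_mem (mul_mem (mul_mem q1 q2) (inv_mem q1)) q2) ▸ a')
  by_contra n
  obtain ⟨μ, p, q⟩ := start (X := X) o n
  obtain ⟨τ, t⟩ := tau1 p ⊤ trivial fun g _ => ⟨h3 a ha μ p q g, ce a ha g⟩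
  exact (t ⟨a, trivial⟩).1 (Abelianization.commutator_subset_ker (τ.comp (Subgroup.topEquiv (G := G)).symm.toMonoidHom) hc) p

end Sys

end Pool.Agent.H.MP_8a4945_al
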