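import Pool.Agent.H.MP_f61096_al.C

namespace Pool.Agent.H.MP_8a4945_al

open Filter

variable {S : Type} {R : Set (Rl S)} {G T : Type} [Group G] [MulAction G T] {X : Sys R G T} {o : T} {N : T → List (Tm S)}

theorem conv_top {O : Type} [LinearOrder O] [Nonempty O] (P : O → Prop) (h : ∀ x y z, x < y → y < z → P x → P z → P y) :
    (∀ᶠ x in atTop, P x) ∨ ∀ᶠ x in atTop, ¬ P x := by
  refine or_iff_not_imp_right.2 fun k => ?_
  have k := frequently_atTop.1 (not_eventually.1 k)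
  obtain ⟨x, -, p⟩ := k (Classical.arbitrary O)
  refine (eventually_ge_atTop x).mono fun y i => ?_
  obtain ⟨z, j, q⟩ := k y
  rcases i.eq_or_lt with rfl | i
  · exact not_not.1 p
  rcases j.eq_or_lt with rfl | j
  exacts [not_not.1 q, h x y z i j (not_not.1 p) (not_not.1 q)]

namespace Sys

def lt (X : Sys R G T) (μ ν : X.Q true) : Prop := ∃ t i j, i < j ∧ j < X.ln t ∧ X.q true t i = μ ∧ X.q true t j = ν

theorem Chart.mix2 (hN : X.Chart o N) {t i u j} (k : X.q true t i = X.q true u j) (h : i < X.ln t) :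
    ∃ s, N s = (N u).take j ++ (N t).drop i ∧ (∀ m < j, m < X.ln s ∧ X.q true s m = X.q true u m) ∧
      ∀ m, i + m < X.ln t → j + m < X.ln s ∧ X.q true s (j + m) = X.q true t (i + m) := by
  obtain ⟨s, e, -⟩ := hN.mix k
  have l := hN.val k h
  have l1 : ((N u).take j).length = j := by simp [hN.len, l.le]
  have l2 : X.ln s = j + (X.ln t - i) := by rw [ln, ← hN.len, e, List.length_append, l1, List.length_drop, hN.len]
  refine ⟨s, e, fun m p => ⟨by omega, to1 (hN.kk0 (by omega) ?_)⟩, fun m p => ⟨by omega, to1 (hN.kk0 (by omega) ?_)⟩⟩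
  · rw [e, List.getElem?_append_left (by omega), List.getElem?_take_of_lt p]
  · rw [e, List.getElem?_append_right (by omega), l1, List.getElem?_drop, Nat.add_sub_cancel_left]

theorem lt_irr (μ) : ¬ X.lt μ μ := fun ⟨t, i, j, a, b, c, d⟩ => by
  obtain ⟨N, hN⟩ := X.chart t
  exact a.ne (hN.idx (a.trans b) (hN.nm (c.trans d.symm)))

theorem lt_tr {μ ν ξ} : X.lt μ ν → X.lt ν ξ → X.lt μ ξ := fun ⟨t, i, j, a, b, c, d⟩ ⟨u, k, l, a', b', c', d'⟩ => by
  obtain ⟨N, hN⟩ := X.chart t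
  obtain ⟨s, -, p, q⟩ := hN.mix2 (c'.trans d.symm) (a'.trans b')
  obtain ⟨m, rfl⟩ := Nat.exists_eq_add_of_le a'.le
  exact ⟨s, i, j + m, by omega, (q m b').1, (p i a).2.trans c, (q m b').2.trans d'⟩

theorem lt_act (g : G) {μ ν} : X.lt μ ν → X.lt (g • μ) (g • ν) := fun ⟨t, i, j, a, b, c, d⟩ =>
  ⟨g • t, i, j, a, by rwa [ln_act], c ▸ rfl, d ▸ rfl⟩

noncomputable def DD (X : Sys R G T) (o : T) (ν : X.Q true) : ℕ := sInf ((X.di · o) '' X.Z true ν)

theorem DD_le {ν t} (h : t ∈ X.Z true ν) (o : T) : X.DD o ν ≤ X.di t o := Nat.sInf_le ⟨t, h, rfl⟩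

theorem DD_ex {ν} (h : (X.Z true ν).Nonempty) (o : T) : ∃ t ∈ X.Z true ν, X.di t o = X.DD o ν := Nat.sInf_mem (h.image (X.di · o))

theorem DD_act (g : G) (o : T) (ν) : X.DD o (g • ν) = X.DD (g⁻¹ • o) ν := congrArg sInf (Set.ext fun _ =>
  ⟨fun ⟨t, a, b⟩ => ⟨g⁻¹ • t, by simpa using Z_act g⁻¹ a, (X.di_act ..).trans b⟩,
    fun ⟨t, a, b⟩ => ⟨g • t, Z_act g a, by simpa using (X.di_act g t (g⁻¹ • o)).trans b⟩⟩)

theorem gateD {ν s t u} (a : s ∈ X.Z true ν) (b : X.di s u = X.DD u ν) (c : t ∈ X.Z true ν) : X.di t u = X.di t s + X.di s u := by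
  obtain ⟨N, hN⟩ := X.chart u
  have := hN.gate1 a (fun v i => b ▸ DD_le i u) c
  rw [hN.di_base, hN.di_base, hN.di_eq, dl, symmDiff_of_ge this, Set.ncard_sdiff_add_ncard_of_subset this (hN.inv _).fin]

theorem far {t0 t1 a r d b} (h : X.St t0 t1 a r d b) : (∀ ν, (X.Z true ν).Nonempty → X.DD t1 ν ≤ X.DD t0 ν + 1) ∧
    ∀ μ ν ξ, X.lt μ ν → X.lt ν ξ → X.DD t1 μ = X.DD t0 μ + 1 → X.DD t1 ξ = X.DD t0 ξ + 1 → X.DD t1 ν = X.DD t0 ν + 1 := by
  obtain ⟨N, hN⟩ := X.chart t0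
  obtain ⟨L, A, B, u⟩ := (hN.dich h).resolve_right fun ⟨L, A, B, u⟩ =>
    absurd ((hN.up_c u).2.symm.trans hN.cells_base) (Set.insert_nonempty ..).ne_empty
  generalize (⟨r, d, L⟩ : Ce S) = c at u
  have k : ∀ t, (c ∉ cells (N t) → X.di t t1 = X.di t t0 + 1) ∧ (c ∈ cells (N t) → X.di t t0 = X.di t t1 + 1) := fun t => by
    simpa only [hN.di_eq, dl_comm t] using hN.dl_up u t
  have k1 : ∀ ν, (X.Z true ν).Nonempty → X.DD t1 ν ≤ X.DD t0 ν + 1 := fun ν v => by
    obtain ⟨s, p, q⟩ := DD_ex v t0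
    have := DD_le p t1
    rcases em (c ∈ cells (N s)) with i | i
    exacts [by have := (k s).2 i; omega, by have := (k s).1 i; omega]
  have k2 : ∀ ν, (X.Z true ν).Nonempty → (X.DD t1 ν = X.DD t0 ν + 1 ↔ ∀ t ∈ X.Z true ν, c ∉ cells (N t)) := fun ν v => by
    refine ⟨fun e t i j => ?_, fun e => ?_⟩
    · obtain ⟨s, p, q⟩ := DD_ex v t0
      have := DD_le p t1
      have q' : X.di s t1 = X.DD t1 ν := by
        rcases em (c ∈ cells (N s)) with i | i
        exacts [by have := (k s).2 i; omega, by have := (k s).1 i; omega]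
      have := gateD p q i
      have := gateD p q' i
      have := (k t).2 j
      omega
    · obtain ⟨s, p, q⟩ := DD_ex v t1
      have := DD_le p t0
      have := (k s).1 (e s p)
      have := k1 ν v
      omega
  refine ⟨k1, fun μ ν ξ ⟨t, i, j, a1, a2, a3, a4⟩ ⟨t', i', j', b1, b2, b3, b4⟩ p q => ?_⟩
  refine (k2 ν ⟨t, j, a2, a4⟩).2 fun s ⟨m, c1, c2⟩ w => ?_
  rw [← List.take_append_drop m (N s), cells_app] at w
  rcases w with w | w
  · obtain ⟨s', e, -, f⟩ := hN.mix2 (b3.trans c2.symm) (b1.trans b2)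
    obtain ⟨n, rfl⟩ := Nat.exists_eq_add_of_le b1.le
    exact (k2 ξ ⟨t', _, b2, b4⟩).1 q s' ⟨_, (f n b2).1, (f n b2).2.trans b4⟩ (by rw [e, cells_app]; exact .inl w)
  · obtain ⟨s', e, f, -⟩ := hN.mix2 (c2.trans a4.symm) c1
    exact (k2 μ ⟨t, i, a1.trans a2, a3⟩).1 p s' ⟨i, (f i a1).1, (f i a1).2.trans a3⟩ (by rw [e, cells_app]; exact .inr w)

theorem shift {O : Type} (f : O → X.Q true) (v : ∀ x, (X.Z true (f x)).Nonempty) (l : Filter O) (o : T)
    (h : ∀ P : X.Q true → Prop, (∀ μ ν ξ, X.lt μ ν → X.lt ν ξ → P μ → P ξ → P ν) → (∀ᶠ x in l, P (f x)) ∨ ∀ᶠ x in l, ¬ P (f x)) (u : T) :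
    ∃ c : ℤ, ∀ᶠ x in l, (X.DD u (f x) : ℤ) = X.DD o (f x) + c := by
  refine X.con o (fun u => ∃ c : ℤ, ∀ᶠ x in l, (X.DD u (f x) : ℤ) = X.DD o (f x) + c) ⟨0, by simp⟩ (fun t t' a r d b s ⟨c, p⟩ => ?_) u
  rcases h _ (far s).2 with q | q
  · exact ⟨c + 1, (p.and q).mono fun x i => by omega⟩
  rcases h _ (far (X.sym s)).2 with q' | q'
  · exact ⟨c - 1, (p.and q').mono fun x i => by omega⟩
  · exact ⟨c, (p.and (q.and q')).mono fun x i => by have := (far s).1 _ (v x); have := (far (X.sym s)).1 _ (v x); omega⟩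

theorem proper {O : Set (X.Q true)} (v : ∀ μ ∈ O, ∀ ν ∈ O, (X.Z true μ ∩ X.Z true ν).Nonempty) (o : T) (n : ℕ) :
    {ν ∈ O | X.DD o ν ≤ n}.Finite := by
  obtain ⟨N, hN⟩ := X.chart o
  let E : Set (Ce S) := {c | ∃ ν ∈ O, ∀ t ∈ X.Z true ν, c ∈ cells (N t)}
  have f : ∀ n, {t | cells (N t) ⊆ E ∧ (cells (N t)).ncard ≤ n}.Finite := fun n => by
    induction n with
    | zero => exact (Set.finite_singleton o).subset fun t i => hN.inj (by
        rw [hN.cells_base, (Set.ncard_eq_zero (hN.inv t).fin).1 (Nat.le_zero.1 i.2)])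
    | succ n ih =>
      refine ((Set.finite_singleton o).union (ih.biUnion (t := fun t0 => ⋃ y ∈ {y | y ∈ N t0},
        {t | ∃ c ∈ E, y ∈ c.L ∧ cells (N t) = insert c (cells (N t0))}) fun t0 _ => (List.finite_toSet _).biUnion fun y _ =>
          Set.Subsingleton.finite ?_)).subset fun t i => ?_
      · rintro t ⟨c, ⟨μ, a, b⟩, p, q⟩ t' ⟨c', ⟨ν, a', b'⟩, p', q'⟩
        obtain ⟨s, i, j⟩ := v μ a ν a'
        exact hN.inj (by rw [q, q', (hN.inv s).i5 c (b s i) c' (b' s j) y p p'])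
      · by_cases k : cells (N t) ⊆ cells (N o)
        · exact .inl (hN.inj (k.antisymm (by simp [hN.cells_base])))
        obtain ⟨c, -, t0, a, b, A, B, u⟩ := hN.rm' k
        obtain ⟨p1, p2⟩ := hN.up_c u
        obtain ⟨y, L, e⟩ := List.exists_cons_of_ne_nil u.n1
        have := i.2
        rw [p2, Set.ncard_insert_of_notMem p1 (hN.inv t0).fin] at this
        exact .inr (Set.mem_biUnion (x := t0) ⟨fun x j => i.1 (p2 ▸ .inr j), by omega⟩ (Set.mem_biUnion (x := y) (by simp [u.e1, e])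
          ⟨c, i.1 (p2 ▸ .inl rfl), by simp [e], p2⟩))
  refine ((f n).biUnion (t := fun t => X.q true t '' Set.Iio (X.ln t)) fun t _ => (Set.finite_Iio _).image _).subset fun ν ⟨i, j⟩ => ?_
  obtain ⟨t, p, q⟩ := DD_ex ((v ν i ν i).mono Set.inter_subset_left) o
  exact Set.mem_biUnion (x := t) ⟨fun c k => ⟨ν, i, fun u l => hN.gate1 p (fun w m => q ▸ DD_le m o) l k⟩, by rwa [← hN.di_base, q]⟩ p

theorem mov_fin (o : T) (g : G) : {μ | ∃ t i, i < X.ln t ∧ X.q true t i = μ ∧ X.di t o = X.DD o μ ∧ g • μ = μ ∧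
    X.q false (g • t) i ≠ X.q false t i}.Finite := by
  obtain ⟨N, hN⟩ := X.chart o
  let pn : X.Q true → Option (Tm S) := Quot.lift (fun p => (N p.1)[p.2]?.map (ph true)) fun _ _ h => hN.nm (Quot.sound h)
  refine Set.Finite.of_finite_image (f := pn) (((hN.inv (g • o)).fin.image fun c => some (lp (c.o 0))).subset ?_) ?_
  · rintro _ ⟨_, ⟨t, i, l, rfl, k, h, h'⟩, rfl⟩
    have m : t ∈ X.Z true (X.q true t i) := ⟨i, l, rfl⟩
    replace k : ∀ u ∈ X.Z true (X.q true t i), X.di t o ≤ X.di u o := fun u j => k ▸ DD_le j o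
    obtain ⟨y, e⟩ := hN.get l
    obtain ⟨y', e'⟩ := hN.get (t := g • t) (i := i) (by rwa [ln_act])
    have n := hN.nm h
    rcases hN.upl (hN.gate1 m k (h ▸ Z_act g m)) (List.mem_of_getElem? e') with p | ⟨c, j, p, rfl⟩
    · obtain ⟨j, p⟩ := List.getElem?_of_mem p
      obtain rfl := hN.idx (e := true) l (n.symm.trans (by rw [e', p]))
      exact (h' (hN.kk0 (by rwa [ln_act]) (e'.trans p.symm))).elim
    · refine ⟨c, (hN.gate2 m k h (cells_o (List.mem_of_getElem? e'))).resolve_left p, ?_⟩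
      cases j with
      | zero => exact (congrArg _ e').symm.trans n
      | succ j =>
        simp only [e, e', Option.map_some, ph, cond_true, lp_succ, Option.some.injEq] at n
        exact (p ⟨y, List.mem_of_getElem? e, In.of_lp (by rw [← n]; exact .here _)⟩).elim
  · rintro _ ⟨t, i, l, rfl, -⟩ _ ⟨u, j, -, rfl, -⟩ h
    exact hN.kk l h

theorem fp_solv (X : Sys R G T) (o : T) [Group.IsFinitelyPresented G] [hG : Group.IsSolvable G] (a b : G) : a * b = b * a := by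
  classical
  by_contra n
  obtain ⟨m, e⟩ := id hG
  have ex : ∃ m, derivedSeries G (m + 1) = ⊥ := ⟨m, le_bot_iff.1 (e ▸ derivedSeries_antitone G m.le_succ)⟩
  obtain ⟨k, hk⟩ := Nat.exists_eq_add_one_of_ne_zero (n := Nat.find ex) fun i => n (commutatorElement_eq_one_iff_mul_comm.1 (by
    have := Nat.find_spec ex
    rw [i] at this
    exact (Subgroup.eq_bot_iff_forall _).1 this _ (Subgroup.commutator_mem_commutator trivial trivial)))
  have e1 := hk ▸ Nat.find_spec ex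
  have e2 := Nat.find_min ex (show k < _ by omega)
  have hA := derivedSeries_normal G (k + 1)
  have h2 : ∀ x ∈ derivedSeries G (k + 1), ∀ y ∈ derivedSeries G (k + 1), Commute x y := fun x i y j =>
    commutatorElement_eq_one_iff_commute.1 ((Subgroup.eq_bot_iff_forall _).1 e1 _ (Subgroup.commutator_mem_commutator i j))
  have h4 : derivedSeries G (k + 1) ≤ commutator G := derivedSeries_antitone G (by simp : 1 ≤ k + 1)
  refine e2 ((Subgroup.eq_bot_iff_forall _).2 fun x i => X.case1 o _ (fun π y j => map_derivedSeries_le_derivedSeries π _ ⟨y, j, rfl⟩) h2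
    (fun z j μ p q g => by_contra fun r => ?_) i (h4 i))
  have st : ∀ ν ∈ MulAction.orbit G μ, ∃ y ∈ derivedSeries G (k + 1), X.Hyp y ν ∧ y ∈ X.RR ν := by
    rintro _ ⟨h, rfl⟩
    exact ⟨_, hA.conj_mem z j h, p.conj h, RR_conj h q⟩
  have v : ∀ ν ∈ MulAction.orbit G μ, ∀ ξ ∈ MulAction.orbit G μ, (X.Z true ν ∩ X.Z true ξ).Nonempty := fun ν i ξ j => by
    obtain ⟨y, a, b, -⟩ := st ν i
    obtain ⟨y', a', b', c'⟩ := st ξ j
    exact bridge b b'.1 (fix_start b' c' (h2 _ a _ a'))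
  let O := MulAction.orbit G μ
  have : IsStrictTotalOrder O fun x y => X.lt x.1 y.1 :=
    { irrefl := fun x => lt_irr _
      trans := fun _ _ _ => lt_tr
      trichotomous := fun x y h h' => by
        obtain ⟨t, ⟨i, l, e⟩, j, l', e'⟩ := v _ x.2 _ y.2
        rcases lt_trichotomy i j with w | rfl | w
        exacts [(h ⟨t, i, j, w, l', e, e'⟩).elim, Subtype.ext (e.symm.trans e'), (h' ⟨t, j, i, w, l, e', e⟩).elim] }
  let _ : LinearOrder O := linearOrderOfSTO fun x y => X.lt x.1 y.1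
  have : Nontrivial O := ⟨⟨⟨_, g, rfl⟩, ⟨μ, MulAction.mem_orbit_self μ⟩, fun h => r (congrArg Subtype.val h)⟩⟩
  have v1 : ∀ x : O, (X.Z true x.1).Nonempty := fun x => (v _ x.2 _ x.2).mono Set.inter_subset_left
  choose t ht using fun x : O => DD_ex (v1 x) o
  choose ix hx using fun x : O => (ht x).1
  refine MP_f61096_al.ord (G := G) (O := O) (fun g x y h => lt_act g h) (fun x y => MulAction.exists_smul_eq G x y) (fun x => X.DD o x.1)
    (fun n => ((proper v o n).preimage Subtype.val_injective.injOn).subset fun x i => ⟨x.2, i⟩)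
    (fun g => by
      simpa only [← DD_act] using! shift Subtype.val v1 atTop o (fun P h => conv_top (fun x : O => P x.1) fun x y z => h x y z) (g⁻¹ • o))
    (fun g => by
      simpa only [← DD_act] using! shift Subtype.val v1 atBot o
        (fun P h => conv_top (O := Oᵒᵈ) (fun x : O => P x.1) fun x y z a b c d => h z.1 y.1 x.1 b a d c) (g⁻¹ • o))
    (fun x => MulAction.stabilizer G (X.q false (t x) (ix x)))
    (fun g => ((mov_fin o g).preimage Subtype.val_injective.injOn).subset fun x i =>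
      ⟨t x, ix x, (hx x).1, (hx x).2, (ht x).2, congrArg Subtype.val i.1, i.2⟩) fun x => ?_
  obtain ⟨y, a, b, -⟩ := st _ x.2
  exact ⟨y, h4 a, fun h => (b.conj h).2.2 _ _ (hx (h • x)).2⟩

end Sys

end Pool.Agent.H.MP_8a4945_al
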